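import Pool.Agent.Helper35.OR.Rfn

/-!
Isometries of determinant one of a nondegenerate symmetric form are products of pairs of
reflections.
-/

namespace OR

open Matrix

variable {K : Type*} [Field K] {m : Type*} [Fintype m] [DecidableEq m]

namespace GR1

/-- the form is symmetric -/
theorem b_comm {J : Matrix m m K} (hJ : J.transpose = J) (x y : m → K) :
    x ⬝ᵥ J.mulVec y = y ⬝ᵥ J.mulVec x := by
  rw [Matrix.dotProduct_mulVec, ← Matrix.mulVec_transpose, hJ, dotProduct_comm]

theorem rfn_mulVec {J : Matrix m m K} (hJ : J.transpose = J) (v x : m → K) :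
    (rfn J v).mulVec x = x - (2 * (v ⬝ᵥ J.mulVec x) / (v ⬝ᵥ J.mulVec v)) • v := by
  have h1 : J.mulVec v ⬝ᵥ x = v ⬝ᵥ J.mulVec x := by
    rw [dotProduct_comm, b_comm hJ]
  rw [rfn, Matrix.sub_mulVec, Matrix.one_mulVec, Matrix.smul_mulVec, vecMulVec_mulVec, h1]
  congr 1
  ext i
  simp only [Pi.smul_apply, MulOpposite.smul_eq_mul_unop, smul_eq_mul, MulOpposite.unop_op]
  ring

theorem rfn_sq {J : Matrix m m K} (hJ : J.transpose = J) {v : m → K}
    (hv : v ⬝ᵥ J.mulVec v ≠ 0) : rfn J v * rfn J v = 1 := by
  apply Matrix.ext_of_mulVec_single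
  intro i
  rw [← Matrix.mulVec_mulVec, rfn_mulVec hJ, rfn_mulVec hJ, Matrix.one_mulVec]
  set x : m → K := Pi.single i 1
  rw [Matrix.mulVec_sub, Matrix.mulVec_smul, dotProduct_sub, dotProduct_smul]
  ext k
  simp only [Pi.sub_apply, Pi.smul_apply, smul_eq_mul]
  field_simp
  ring

theorem rfn_isom {J : Matrix m m K} (hJ : J.transpose = J) {v : m → K}
    (hv : v ⬝ᵥ J.mulVec v ≠ 0) (x y : m → K) :
    (rfn J v).mulVec x ⬝ᵥ J.mulVec ((rfn J v).mulVec y) = x ⬝ᵥ J.mulVec y := by
  rw [rfn_mulVec hJ, rfn_mulVec hJ]
  simp only [Matrix.mulVec_sub, Matrix.mulVec_smul, dotProduct_sub, dotProduct_smul,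
    sub_dotProduct, smul_dotProduct, smul_eq_mul]
  rw [b_comm hJ x v]
  field_simp
  ring

theorem rfn_det {J : Matrix m m K} (hJ : J.transpose = J) {v : m → K}
    (hv : v ⬝ᵥ J.mulVec v ≠ 0) : (rfn J v).det = -1 := by
  have h1 : rfn J v = 1 + replicateCol Unit v *
      replicateRow Unit (-(2 / (v ⬝ᵥ J.mulVec v)) • J.mulVec v) := by
    rw [rfn, ← vecMulVec_eq Unit, vecMulVec_smul, neg_smul, sub_eq_add_neg]
  rw [h1, det_one_add_replicateCol_mul_replicateRow, smul_dotProduct, smul_eq_mul,
    dotProduct_comm (J.mulVec v) v]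
  field_simp
  ring

/-- isometries preserve the form -/
theorem isom_b {J : Matrix m m K} {g : Matrix m m K} (hg : g.transpose * J * g = J)
    (x y : m → K) : g.mulVec x ⬝ᵥ J.mulVec (g.mulVec y) = x ⬝ᵥ J.mulVec y := by
  rw [← Matrix.vecMul_transpose, ← Matrix.dotProduct_mulVec, Matrix.mulVec_mulVec,
    Matrix.mulVec_mulVec, hg]

theorem isom_of_b {J : Matrix m m K} {g : Matrix m m K}
    (h : ∀ x y : m → K, g.mulVec x ⬝ᵥ J.mulVec (g.mulVec y) = x ⬝ᵥ J.mulVec y) :
    g.transpose * J * g = J := by
  ext i j
  have h1 := h (Pi.single i 1) (Pi.single j 1)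
  rw [← Matrix.vecMul_transpose, ← Matrix.dotProduct_mulVec, Matrix.mulVec_mulVec,
    Matrix.mulVec_mulVec] at h1
  simpa using h1

theorem list_mem {J : Matrix m m K} (S : Submonoid (Matrix m m K))
    (hS : ∀ v w : m → K, v ⬝ᵥ J.mulVec v ≠ 0 → w ⬝ᵥ J.mulVec w ≠ 0 →
      rfn J v * rfn J w ∈ S) : ∀ (n : ℕ) (l : List (m → K)), l.length = 2 * n →
      (∀ v ∈ l, v ⬝ᵥ J.mulVec v ≠ 0) → (l.map (rfn J)).prod ∈ S := by
  intro n
  induction n with
  | zero =>
    intro l hl _
    have : l = [] := by
      rw [← List.length_eq_zero_iff]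
      omega
    subst this
    simpa using S.one_mem
  | succ n ih =>
    intro l hl hv
    match l, hl, hv with
    | v :: w :: l, hl, hv =>
      rw [List.map_cons, List.map_cons, List.prod_cons, List.prod_cons, ← mul_assoc]
      apply S.mul_mem
      · exact hS v w (hv v (by simp)) (hv w (by simp))
      · apply ih l
        · simp only [List.length_cons] at hl
          omega
        · intro u hu
          exact hv u (by simp [hu])

theorem list_det {J : Matrix m m K} (hJ : J.transpose = J) (l : List (m → K))
    (hv : ∀ v ∈ l, v ⬝ᵥ J.mulVec v ≠ 0) : ((l.map (rfn J)).prod).det = (-1) ^ l.length := by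
  induction l with
  | nil => simp
  | cons v l ih =>
    rw [List.map_cons, List.prod_cons, Matrix.det_mul, rfn_det hJ (hv v (by simp)),
      ih (fun u hu => hv u (by simp [hu])), List.length_cons, pow_succ]
    ring

/-- the main induction: an isometry fixing the first vectors of an orthogonal basis is a product
of reflections -/
theorem exists_list [CharZero K] {J : Matrix m m K} (hJ : J.transpose = J) {D : ℕ}
    (e : Module.Basis (Fin D) K (m → K)) (he : ∀ i j, i ≠ j → e i ⬝ᵥ J.mulVec (e j) = 0)
    (he0 : ∀ i, e i ⬝ᵥ J.mulVec (e i) ≠ 0) : ∀ (n : ℕ) (g : Matrix m m K),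
      g.transpose * J * g = J → (∀ i : Fin D, (i : ℕ) + n < D → g.mulVec (e i) = e i) →
      ∃ l : List (m → K), (∀ v ∈ l, v ⬝ᵥ J.mulVec v ≠ 0) ∧ g = (l.map (rfn J)).prod := by
  intro n
  induction n with
  | zero =>
    intro g _ hfix
    refine ⟨[], by simp, ?_⟩
    rw [List.map_nil, List.prod_nil]
    have h1 : g.mulVecLin = LinearMap.id := by
      apply e.ext
      intro i
      rw [Matrix.mulVecLin_apply, LinearMap.id_apply]
      exact hfix i (by have := i.2; omega)
    apply Matrix.ext_of_mulVec_single
    intro i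
    rw [Matrix.one_mulVec, ← Matrix.mulVecLin_apply, h1, LinearMap.id_apply]
  | succ n ih =>
    intro g hg hfix
    by_cases hn : n < D
    swap
    · exact ih g hg (fun i hi => by have := i.2; omega)
    · -- the vector to be fixed
      let k : Fin D := ⟨D - 1 - n, by omega⟩
      have hk : (k : ℕ) = D - 1 - n := rfl
      have hfix' : ∀ i : Fin D, i < k → g.mulVec (e i) = e i := by
        intro i hi
        apply hfix
        have : (i : ℕ) < k := hi
        omega
      set w := g.mulVec (e k) with hw
      have hww : w ⬝ᵥ J.mulVec w = e k ⬝ᵥ J.mulVec (e k) := isom_b hg _ _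
      have hwi : ∀ i : Fin D, i < k → w ⬝ᵥ J.mulVec (e i) = 0 := by
        intro i hi
        have h1 := isom_b hg (e k) (e i)
        rw [hfix' i hi] at h1
        rw [h1]
        exact he k i (ne_of_gt hi)
      -- reduction step
      have key : ∀ r : Matrix m m K, (∀ x y : m → K,
          r.mulVec x ⬝ᵥ J.mulVec (r.mulVec y) = x ⬝ᵥ J.mulVec y) →
          (∀ i : Fin D, i < k → r.mulVec (e i) = e i) → r.mulVec w = e k →
          ∃ l : List (m → K), (∀ v ∈ l, v ⬝ᵥ J.mulVec v ≠ 0) ∧
            r * g = (l.map (rfn J)).prod := by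
        intro r hr1 hr2 hr3
        apply ih
        · apply isom_of_b
          intro x y
          rw [← Matrix.mulVec_mulVec, ← Matrix.mulVec_mulVec, hr1, isom_b hg]
        · intro i hi
          rw [← Matrix.mulVec_mulVec]
          rcases lt_or_eq_of_le (show (i : ℕ) ≤ k by omega) with h | h
          · have hik : i < k := h
            rw [hfix' i hik, hr2 i hik]
          · have hik : i = k := Fin.ext h
            rw [hik, ← hw, hr3]
      by_cases hd : (w - e k) ⬝ᵥ J.mulVec (w - e k) = 0
      · -- then `w + e k` is not isotropic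
        have hexp : (w - e k) ⬝ᵥ J.mulVec (w - e k) =
            2 * (e k ⬝ᵥ J.mulVec (e k)) - 2 * (w ⬝ᵥ J.mulVec (e k)) := by
          simp only [Matrix.mulVec_sub, dotProduct_sub, sub_dotProduct]
          rw [hww, b_comm hJ (e k) w]
          ring
        have hexp2 : (w + e k) ⬝ᵥ J.mulVec (w + e k) =
            2 * (e k ⬝ᵥ J.mulVec (e k)) + 2 * (w ⬝ᵥ J.mulVec (e k)) := by
          simp only [Matrix.mulVec_add, dotProduct_add, add_dotProduct]
          rw [hww, b_comm hJ (e k) w]
          ring
        have hwk : w ⬝ᵥ J.mulVec (e k) = e k ⬝ᵥ J.mulVec (e k) := by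
          rw [hexp] at hd
          linear_combination (-1 / 2) * hd
        have hs : (w + e k) ⬝ᵥ J.mulVec (w + e k) ≠ 0 := by
          rw [hexp2, hwk]
          have := he0 k
          intro h0
          apply this
          linear_combination (1 / 4) * h0
        obtain ⟨l, hl, hl'⟩ := key (rfn J (e k) * rfn J (w + e k))
          (by
            intro x y
            rw [← Matrix.mulVec_mulVec, ← Matrix.mulVec_mulVec, rfn_isom hJ (he0 k),
              rfn_isom hJ hs])
          (by
            intro i hi
            have h1 : (w + e k) ⬝ᵥ J.mulVec (e i) = 0 := by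
              rw [add_dotProduct, hwi i hi, he k i (ne_of_gt hi), add_zero]
            rw [← Matrix.mulVec_mulVec, rfn_mulVec hJ (w + e k), h1, mul_zero, zero_div,
              zero_smul, sub_zero, rfn_mulVec hJ, he k i (ne_of_gt hi), mul_zero, zero_div,
              zero_smul, sub_zero])
          (by
            have h1 : (w + e k) ⬝ᵥ J.mulVec w = 2 * (e k ⬝ᵥ J.mulVec (e k)) := by
              rw [add_dotProduct, hww, b_comm hJ (e k) w, hwk]
              ring
            have h2 : (rfn J (w + e k)).mulVec w = - e k := by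
              rw [rfn_mulVec hJ, h1, hexp2, hwk]
              have := he0 k
              ext t
              simp only [Pi.sub_apply, Pi.smul_apply, Pi.add_apply, Pi.neg_apply, smul_eq_mul]
              field_simp
              ring
            rw [← Matrix.mulVec_mulVec, h2, Matrix.mulVec_neg, rfn_mulVec hJ]
            have := he0 k
            ext t
            simp only [Pi.sub_apply, Pi.smul_apply, Pi.neg_apply, smul_eq_mul]
            field_simp
            ring)
        refine ⟨(w + e k) :: e k :: l, ?_, ?_⟩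
        · intro v hv
          rcases List.mem_cons.1 hv with rfl | hv
          · exact hs
          rcases List.mem_cons.1 hv with rfl | hv
          · exact he0 k
          · exact hl v hv
        · rw [List.map_cons, List.map_cons, List.prod_cons, List.prod_cons, ← hl']
          calc g = (rfn J (w + e k) * (rfn J (e k) * rfn J (e k)) * rfn J (w + e k)) * g := by
                rw [rfn_sq hJ (he0 k), mul_one, rfn_sq hJ hs, one_mul]
            _ = _ := by simp only [mul_assoc]
      · obtain ⟨l, hl, hl'⟩ := key (rfn J (w - e k)) (rfn_isom hJ hd)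
          (by
            intro i hi
            have h1 : (w - e k) ⬝ᵥ J.mulVec (e i) = 0 := by
              rw [sub_dotProduct, hwi i hi, he k i (ne_of_gt hi), sub_zero]
            rw [rfn_mulVec hJ, h1, mul_zero, zero_div, zero_smul, sub_zero])
          (by
            have h1 : (w - e k) ⬝ᵥ J.mulVec (w - e k) = 2 * ((w - e k) ⬝ᵥ J.mulVec w) := by
              simp only [Matrix.mulVec_sub, dotProduct_sub, sub_dotProduct]
              rw [hww, b_comm hJ (e k) w]
              ring
            rw [rfn_mulVec hJ, ← h1, div_self hd, one_smul, sub_sub_cancel])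
        refine ⟨(w - e k) :: l, ?_, ?_⟩
        · intro v hv
          rcases List.mem_cons.1 hv with rfl | hv
          · exact hd
          · exact hl v hv
        · rw [List.map_cons, List.prod_cons, ← hl', ← mul_assoc, rfn_sq hJ hd, one_mul]

end GR1

/-- GR1: isometries of determinant one are products of pairs of reflections (weak form of the
theorem of Cartan and Dieudonne). -/
theorem isom_mem [CharZero K] {J : Matrix m m K} (hJ : J.transpose = J) (hdet : J.det ≠ 0)
    (S : Submonoid (Matrix m m K))
    (hS : ∀ v w : m → K, v ⬝ᵥ J.mulVec v ≠ 0 → w ⬝ᵥ J.mulVec w ≠ 0 →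
      rfn J v * rfn J w ∈ S) {g : Matrix m m K} (hg : g.transpose * J * g = J)
    (hg1 : g.det = 1) : g ∈ S := by
  let B : LinearMap.BilinForm K (m → K) := Matrix.toBilin' J
  have hB : ∀ x y, B x y = x ⬝ᵥ J.mulVec y := fun x y => Matrix.toBilin'_apply' J x y
  have hsymm : LinearMap.IsSymm B := ⟨fun x y => by
    simp only [hB, RingHom.id_apply]
    exact GR1.b_comm hJ x y⟩
  letI : Invertible (2 : K) := invertibleOfNonzero two_ne_zero
  obtain ⟨e, he⟩ := LinearMap.BilinForm.exists_orthogonal_basis hsymm
  have hnd : B.Nondegenerate := LinearMap.BilinForm.nondegenerate_toBilin'_of_det_ne_zero' J hdet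
  have he0 : ∀ i, B (e i) (e i) ≠ 0 := fun i =>
    LinearMap.BilinForm.iIsOrtho.not_isOrtho_basis_self_of_nondegenerate he hnd i
  obtain ⟨l, hl, hl'⟩ := GR1.exists_list hJ e
    (fun i j hij => by rw [← hB]; exact he hij)
    (fun i => by rw [← hB]; exact he0 i) (Module.finrank K (m → K)) g hg
    (fun i hi => absurd hi (by omega))
  have hdet' := GR1.list_det hJ l hl
  rw [← hl', hg1] at hdet'
  have heven : Even l.length := by
    by_contra hodd
    rw [Nat.not_even_iff_odd] at hodd
    rw [hodd.neg_one_pow] at hdet'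
    have : (2 : K) = 0 := by linear_combination hdet'
    exact two_ne_zero this
  obtain ⟨n, hn⟩ := heven
  rw [hl']
  exact GR1.list_mem S hS n l (by omega) hl

end OR
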