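import Mathlib

/-!
A formal path whose velocity is given by a derivation stays in the zero set of an ideal stable
under the derivation.
-/

namespace OR

namespace GR2

open PowerSeries

variable {K : Type*} [Field K] {σ : Type*}

theorem q_mul_deriv (F : MvPolynomial σ K →ₐ[K] K⟦X⟧) (q : K⟦X⟧)
    (δ : Derivation K (MvPolynomial σ K) (MvPolynomial σ K))
    (hX : ∀ s, q * d⁄dX K (F (MvPolynomial.X s)) = F (δ (MvPolynomial.X s)))
    (p : MvPolynomial σ K) : q * d⁄dX K (F p) = F (δ p) := by
  induction p using MvPolynomial.induction_on with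
  | C c =>
    rw [MvPolynomial.derivation_C, map_zero, ← MvPolynomial.algebraMap_eq, AlgHom.commutes,
      Derivation.map_algebraMap, mul_zero]
  | add p r hp hr =>
    rw [map_add, map_add, mul_add, hp, hr, map_add, map_add]
  | mul_X p s hp =>
    rw [map_mul, Derivation.leibniz, Derivation.leibniz, map_add, smul_eq_mul, smul_eq_mul,
      smul_eq_mul, smul_eq_mul, map_mul, map_mul, ← hX, ← hp]
    ring

/-- the path stays in the zero set -/
theorem F_zero [CharZero K] (F : MvPolynomial σ K →ₐ[K] K⟦X⟧) (q : K⟦X⟧)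
    (hq : constantCoeff q ≠ 0) (δ : Derivation K (MvPolynomial σ K) (MvPolynomial σ K))
    (hX : ∀ s, q * d⁄dX K (F (MvPolynomial.X s)) = F (δ (MvPolynomial.X s)))
    (I : Set (MvPolynomial σ K)) (hI : ∀ p ∈ I, δ p ∈ I)
    (h0 : ∀ p ∈ I, constantCoeff (F p) = 0) {p : MvPolynomial σ K} (hp : p ∈ I) : F p = 0 := by
  have key : ∀ n : ℕ, ∀ p ∈ I, ∀ k ≤ n, coeff k (F p) = 0 := by
    intro n
    induction n with
    | zero =>
      intro p hp k hk
      obtain rfl : k = 0 := by omega
      rw [coeff_zero_eq_constantCoeff_apply]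
      exact h0 p hp
    | succ n ih =>
      intro p hp k hk
      rcases Nat.lt_or_ge n k with h | h
      swap
      · exact ih p hp k h
      obtain rfl : k = n + 1 := by omega
      have h1 := congrArg (coeff n) (q_mul_deriv F q δ hX p)
      rw [ih _ (hI p hp) n le_rfl, coeff_mul] at h1
      rw [Finset.sum_eq_single_of_mem (0, n) (by simp)] at h1
      · rw [coeff_derivative, coeff_zero_eq_constantCoeff_apply] at h1
        have h2 : ((n : K) + 1) ≠ 0 := by exact_mod_cast Nat.succ_ne_zero n
        rcases mul_eq_zero.1 h1 with h3 | h3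
        · exact absurd h3 hq
        · exact (mul_eq_zero.1 h3).resolve_right h2
      · rintro ⟨i, j⟩ hij hne
        rw [Finset.HasAntidiagonal.mem_antidiagonal] at hij
        simp only at hij
        have hj : j < n := by
          rcases Nat.lt_or_ge j n with h | h
          · exact h
          · exfalso
            apply hne
            have : i = 0 := by omega
            have : j = n := by omega
            simp [*]
        rw [coeff_derivative, ih p hp (j + 1) (by omega), zero_mul, mul_zero]
  ext n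
  rw [key n p hp n le_rfl, map_zero]

/-- evaluation at one of the path `M / q` -/
theorem exists_poly (F : MvPolynomial σ K →ₐ[K] K⟦X⟧) (q : Polynomial K)
    (M : σ → Polynomial K) (hF : ∀ s, (q : K⟦X⟧) * F (MvPolynomial.X s) = (M s : K⟦X⟧))
    (x : σ → K) (hx : ∀ s, q.eval 1 * x s = (M s).eval 1) (p : MvPolynomial σ K) :
    ∃ (N : ℕ) (h : Polynomial K), (q : K⟦X⟧) ^ N * F p = (h : K⟦X⟧) ∧
      h.eval 1 = (q.eval 1) ^ N * MvPolynomial.eval x p := by
  induction p using MvPolynomial.induction_on with
  | C c =>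
    refine ⟨0, Polynomial.C c, ?_, by simp⟩
    rw [pow_zero, one_mul, ← MvPolynomial.algebraMap_eq, AlgHom.commutes, Polynomial.coe_C]
    rfl
  | add p r hp hr =>
    obtain ⟨N1, h1, h11, h12⟩ := hp
    obtain ⟨N2, h2, h21, h22⟩ := hr
    refine ⟨N1 + N2, q ^ N2 * h1 + q ^ N1 * h2, ?_, ?_⟩
    · rw [Polynomial.coe_add, Polynomial.coe_mul, Polynomial.coe_mul, Polynomial.coe_pow,
        Polynomial.coe_pow, ← h11, ← h21, map_add]
      ring
    · rw [Polynomial.eval_add, Polynomial.eval_mul, Polynomial.eval_mul, Polynomial.eval_pow,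
        Polynomial.eval_pow, h12, h22, map_add]
      ring
  | mul_X p s hp =>
    obtain ⟨N, h, h1, h2⟩ := hp
    refine ⟨N + 1, h * M s, ?_, ?_⟩
    · rw [Polynomial.coe_mul, ← h1, ← hF, map_mul]
      ring
    · rw [Polynomial.eval_mul, h2, ← hx, map_mul, MvPolynomial.eval_X]
      ring

/-- the value at one of a path in the zero set is in the zero set -/
theorem eval_one (F : MvPolynomial σ K →ₐ[K] K⟦X⟧) (q : Polynomial K)
    (M : σ → Polynomial K) (hF : ∀ s, (q : K⟦X⟧) * F (MvPolynomial.X s) = (M s : K⟦X⟧))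
    (x : σ → K) (hx : ∀ s, q.eval 1 * x s = (M s).eval 1) (hq1 : q.eval 1 ≠ 0)
    {p : MvPolynomial σ K} (hp : F p = 0) : MvPolynomial.eval x p = 0 := by
  obtain ⟨N, h, h1, h2⟩ := exists_poly F q M hF x hx p
  rw [hp, mul_zero] at h1
  have h3 : h = 0 := by
    apply Polynomial.coe_injective K
    rw [← h1, Polynomial.coe_zero]
  rw [h3, Polynomial.eval_zero] at h2
  exact (mul_eq_zero.1 h2.symm).resolve_left (pow_ne_zero _ hq1)

end GR2

end OR
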