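import Pool.Agent.Helper35.OR.Rfn

/-!
The polynomial path between two reflections.
-/

namespace OR

namespace GR2

open Matrix Polynomial

variable {K : Type*} [Field K] {m : Type*} [Fintype m] [DecidableEq m]

/-- the path of vectors -/
noncomputable def aP (v u : m → K) (i : m) : K[X] := C (v i) + X * C (u i)

/-- the values of the form -/
noncomputable def qP (J : Matrix m m K) (v u : m → K) : K[X] :=
  C (v ⬝ᵥ J.mulVec v) + X * C (2 * (u ⬝ᵥ J.mulVec v)) + X ^ 2 * C (u ⬝ᵥ J.mulVec u)

/-- the path of reflections, without denominators -/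
noncomputable def NP (J : Matrix m m K) (v u : m → K) (i j : m) : K[X] :=
  C ((1 : Matrix m m K) i j) * qP J v u - 2 * aP v u i * aP (J.mulVec v) (J.mulVec u) j

/-- the path of products, without denominators -/
noncomputable def MP (R J : Matrix m m K) (v u : m → K) (i j : m) : K[X] :=
  ∑ k, C (R i k) * NP J v u k j

/-- the velocity -/
def zP (J : Matrix m m K) (v u : m → K) : Matrix m m K :=
  (-2 : K) • (vecMulVec u (J.mulVec v) - vecMulVec v (J.mulVec u))

omit [DecidableEq m] in
theorem zP_apply (J : Matrix m m K) (v u : m → K) (i j : m) :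
    zP J v u i j = -2 * (u i * J.mulVec v j - v i * J.mulVec u j) := by
  simp [zP, vecMulVec_apply]

omit [DecidableEq m] in
theorem dot_comm {J : Matrix m m K} (hJ : J.transpose = J) (x y : m → K) :
    x ⬝ᵥ J.mulVec y = y ⬝ᵥ J.mulVec x := by
  rw [Matrix.dotProduct_mulVec, ← Matrix.mulVec_transpose, hJ, dotProduct_comm]

omit [DecidableEq m] in
/-- the velocity is skew -/
theorem zP_skew {J : Matrix m m K} (hJ : J.transpose = J) (v u : m → K) :
    (zP J v u).transpose * J + J * zP J v u = 0 := by
  have h1 : ∀ x y : m → K, J * vecMulVec x (J.mulVec y) =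
      vecMulVec (J.mulVec x) (J.mulVec y) := by
    intro x y
    rw [mul_vecMulVec]
  have h2 : ∀ x y : m → K, (vecMulVec x (J.mulVec y)).transpose * J =
      vecMulVec (J.mulVec y) (J.mulVec x) := by
    intro x y
    rw [transpose_vecMulVec, vecMulVec_mul, ← mulVec_transpose, hJ]
  rw [zP, transpose_smul, transpose_sub, Matrix.smul_mul, Matrix.mul_smul, Matrix.sub_mul,
    Matrix.mul_sub, h1, h1, h2, h2, ← smul_add]
  simp

omit [DecidableEq m] in
theorem eval_qP {J : Matrix m m K} (hJ : J.transpose = J) (v u : m → K) (t : K) :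
    (qP J v u).eval t = (v + t • u) ⬝ᵥ J.mulVec (v + t • u) := by
  rw [qP, mulVec_add, mulVec_smul, add_dotProduct, dotProduct_add, dotProduct_add,
    smul_dotProduct, smul_dotProduct, dotProduct_smul, dotProduct_smul, dot_comm hJ v u]
  simp only [eval_add, eval_mul, eval_C, eval_X, eval_pow, smul_eq_mul]
  ring

omit [DecidableEq m] in
theorem eval_aP (v u : m → K) (t : K) (i : m) : (aP v u i).eval t = (v + t • u) i := by
  simp only [aP, eval_add, eval_mul, eval_C, eval_X, Pi.add_apply, Pi.smul_apply, smul_eq_mul]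

theorem eval_NP {J : Matrix m m K} (hJ : J.transpose = J) (v u : m → K) (t : K) (i j : m)
    (h0 : (v + t • u) ⬝ᵥ J.mulVec (v + t • u) ≠ 0) :
    (NP J v u i j).eval t = ((v + t • u) ⬝ᵥ J.mulVec (v + t • u)) *
      rfn J (v + t • u) i j := by
  have h1 : (aP (J.mulVec v) (J.mulVec u) j).eval t = J.mulVec (v + t • u) j := by
    rw [eval_aP, mulVec_add, mulVec_smul]
  rw [NP, eval_sub, eval_mul, eval_mul, eval_mul, eval_C, eval_qP hJ, eval_aP, h1, rfn,
    Matrix.sub_apply, Matrix.smul_apply, vecMulVec_apply, smul_eq_mul]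
  have h2 : (2 : K[X]).eval t = 2 := by
    rw [show (2 : K[X]) = C 2 from (C_ofNat 2).symm, eval_C]
  rw [h2]
  field_simp

theorem eval_MP {J : Matrix m m K} (hJ : J.transpose = J) (R : Matrix m m K) (v u : m → K)
    (t : K) (i j : m) (h0 : (v + t • u) ⬝ᵥ J.mulVec (v + t • u) ≠ 0) :
    (MP R J v u i j).eval t = ((v + t • u) ⬝ᵥ J.mulVec (v + t • u)) *
      (R * rfn J (v + t • u)) i j := by
  rw [MP, eval_finsetSum, Matrix.mul_apply, Finset.mul_sum]
  apply Finset.sum_congr rfl
  intro k _
  rw [eval_mul, eval_C, eval_NP hJ v u t k j h0]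
  ring

/-- the differential equation -/
theorem deriv_NP {J : Matrix m m K} (hJ : J.transpose = J) (v u : m → K) (i j : m) :
    derivative (NP J v u i j) * qP J v u - NP J v u i j * derivative (qP J v u) =
      ∑ k, NP J v u i k * C (zP J v u k j) := by
  have h1 : ∑ k, aP (J.mulVec v) (J.mulVec u) k * C (u k) =
      C (u ⬝ᵥ J.mulVec v) + X * C (u ⬝ᵥ J.mulVec u) := by
    simp only [aP, dotProduct, map_sum, Finset.mul_sum, ← Finset.sum_add_distrib, map_mul]
    apply Finset.sum_congr rfl
    intro k _
    ring
  have h2 : ∑ k, aP (J.mulVec v) (J.mulVec u) k * C (v k) =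
      C (v ⬝ᵥ J.mulVec v) + X * C (u ⬝ᵥ J.mulVec v) := by
    rw [← dot_comm hJ v u]
    simp only [aP, dotProduct, map_sum, Finset.mul_sum, ← Finset.sum_add_distrib, map_mul]
    apply Finset.sum_congr rfl
    intro k _
    ring
  have h3 : ∑ k, NP J v u i k * C (zP J v u k j) =
      qP J v u * C (zP J v u i j) - 2 * aP v u i *
        (-2 * ((∑ k, aP (J.mulVec v) (J.mulVec u) k * C (u k)) * C (J.mulVec v j) -
          (∑ k, aP (J.mulVec v) (J.mulVec u) k * C (v k)) * C (J.mulVec u j))) := by
    have h4 : qP J v u * C (zP J v u i j) =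
        ∑ k, C ((1 : Matrix m m K) i k) * qP J v u * C (zP J v u k j) := by
      rw [Finset.sum_eq_single i]
      · simp
      · intro k _ hk
        rw [Matrix.one_apply_ne hk.symm]
        simp
      · simp
    rw [h4, Finset.sum_mul, Finset.sum_mul, ← Finset.sum_sub_distrib, Finset.mul_sum,
      Finset.mul_sum, ← Finset.sum_sub_distrib]
    apply Finset.sum_congr rfl
    intro k _
    rw [NP, zP_apply]
    simp only [map_mul, map_sub, map_neg, C_ofNat]
    ring
  rw [h3, h1, h2, zP_apply, NP, qP, aP, aP]
  have h5 : (C (2 : K) : K[X]) = 2 := C_ofNat 2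
  simp only [map_mul, map_sub, map_neg, derivative_mul, derivative_add,
    derivative_C, derivative_X, derivative_X_pow, derivative_ofNat]
  simp
  simp only [h5]
  ring

/-- the differential equation for the products -/
theorem deriv_MP {J : Matrix m m K} (hJ : J.transpose = J) (R : Matrix m m K) (v u : m → K)
    (i j : m) :
    derivative (MP R J v u i j) * qP J v u - MP R J v u i j * derivative (qP J v u) =
      ∑ k, MP R J v u i k * C (zP J v u k j) := by
  simp only [MP, derivative_sum, Finset.sum_mul]
  rw [Finset.sum_comm, ← Finset.sum_sub_distrib]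
  apply Finset.sum_congr rfl
  intro l _
  have h1 := deriv_NP hJ v u l j
  calc derivative (C (R i l) * NP J v u l j) * qP J v u -
        C (R i l) * NP J v u l j * derivative (qP J v u) =
        C (R i l) * (derivative (NP J v u l j) * qP J v u -
          NP J v u l j * derivative (qP J v u)) := by
        rw [derivative_mul, derivative_C]
        ring
    _ = _ := by
        rw [h1, Finset.mul_sum]
        apply Finset.sum_congr rfl
        intro k _
        ring

end GR2

end OR
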