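import Pool.Agent.Helper35.OR.GR1
import Pool.Agent.Helper35.OR.Path
import Pool.Agent.Helper35.OR.PathN
import Pool.Agent.Helper93.UN.GB

/-!
A closed group whose Lie algebra contains all skew operators of a symmetric form contains the
products of two reflections.
-/

namespace OR

open Matrix MTPairs

variable {K : Type*} [Field K] [CharZero K] {m : Type*} [Fintype m] [DecidableEq m]

namespace GR2

/-- the formal path in the group -/
noncomputable def FP (R J : Matrix m m K) (v u : m → K) :
    MvPolynomial (m × m) K →ₐ[K] PowerSeries K :=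
  MvPolynomial.aeval (fun ij : m × m => (MP R J v u ij.1 ij.2 : PowerSeries K) *
    (qP J v u : PowerSeries K)⁻¹)

omit [CharZero K] in
theorem FP_X (R J : Matrix m m K) (v u : m → K) (i j : m) :
    FP R J v u (MvPolynomial.X (i, j)) = (MP R J v u i j : PowerSeries K) *
    (qP J v u : PowerSeries K)⁻¹ := by
  rw [FP, MvPolynomial.aeval_X]

omit [CharZero K] in
theorem der_apply (z : Matrix m m K) (i j : m) :
    MTP.der (Matrix.stdBasis K m m) z (MvPolynomial.X (i, j)) =
      ∑ l, MvPolynomial.C (z l j) * MvPolynomial.X (i, l) := by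
  rw [MTP.der_X, Fintype.sum_prod_type, Finset.sum_eq_single i]
  · apply Finset.sum_congr rfl
    intro l _
    congr 2
    rw [UN.gb_repr, Matrix.stdBasis_eq_single]
    simp
  · intro k _ hk
    apply Finset.sum_eq_zero
    intro l _
    rw [UN.gb_repr, Matrix.stdBasis_eq_single]
    simp [hk.symm]
  · simp

end GR2

/-- GR2: a closed group whose Lie algebra contains all skew operators contains the products of
two reflections. -/
theorem rfl_rfl_mem {J : Matrix m m K} (hJ : J.transpose = J)
    {G : Subgroup (Matrix.GeneralLinearGroup m K)} (hG : ZariskiClosed G)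
    (h : ∀ z : Matrix m m K, z.transpose * J + J * z = 0 →
      z ∈ MTP.lieOf (Matrix.stdBasis K m m) (UN.gM G)) {v w : m → K}
    (hv : v ⬝ᵥ J.mulVec v ≠ 0) (hw : w ⬝ᵥ J.mulVec w ≠ 0) :
    ∃ g ∈ G, (g : Matrix m m K) = rfn J v * rfn J w := by
  obtain ⟨P, hP⟩ := hG
  -- the element
  have hinv1 : (rfn J v * rfn J w) * (rfn J w * rfn J v) = 1 := by
    rw [mul_assoc, ← mul_assoc (rfn J w), GR1.rfn_sq hJ hw, one_mul, GR1.rfn_sq hJ hv]
  have hinv2 : (rfn J w * rfn J v) * (rfn J v * rfn J w) = 1 := by
    rw [mul_assoc, ← mul_assoc (rfn J v), GR1.rfn_sq hJ hv, one_mul, GR1.rfn_sq hJ hw]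
  refine ⟨⟨rfn J v * rfn J w, rfn J w * rfn J v, hinv1, hinv2⟩, ?_, rfl⟩
  rw [hP]
  intro p hp
  change MvPolynomial.eval (fun ij => (rfn J v * rfn J w) ij.1 ij.2) p = 0
  -- the path
  obtain ⟨u, rfl⟩ : ∃ u, w = v + (1 : K) • u := ⟨w - v, by simp⟩
  have hv0 : (v + (0 : K) • u) = v := by simp
  set q := GR2.qP J v u with hqdef
  set z := GR2.zP J v u with hzdef
  have hz : z ∈ MTP.lieOf (Matrix.stdBasis K m m) (UN.gM G) := h z (GR2.zP_skew hJ v u)
  have hq0 : PowerSeries.constantCoeff (q : PowerSeries K) ≠ 0 := by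
    rw [Polynomial.constantCoeff_coe, Polynomial.coeff_zero_eq_eval_zero, hqdef,
      GR2.eval_qP hJ, hv0]
    exact hv
  have hqq : (q : PowerSeries K) * (q : PowerSeries K)⁻¹ = 1 := PowerSeries.mul_inv_cancel _ hq0
  have hq1 : q.eval 1 ≠ 0 := by
    rw [hqdef, GR2.eval_qP hJ]
    exact hw
  apply GR2.eval_one (GR2.FP (rfn J v) J v u) q
    (fun ij => GR2.MP (rfn J v) J v u ij.1 ij.2) ?_ _ ?_ hq1 ?_
  · rintro ⟨i, j⟩
    rw [GR2.FP_X, mul_left_comm, hqq, mul_one]
  · rintro ⟨i, j⟩
    rw [GR2.eval_MP hJ _ _ _ _ _ _ hw, hqdef, GR2.eval_qP hJ]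
  · apply GR2.F_zero (GR2.FP (rfn J v) J v u) (q : PowerSeries K) hq0
      (MTP.der (Matrix.stdBasis K m m) z) ?_
      {p | ∀ g ∈ UN.gM G, MTP.ev (Matrix.stdBasis K m m) g p = 0} ?_ ?_ ?_
    · rintro ⟨i, j⟩
      have h1 := congrArg (fun f : Polynomial K => (f : PowerSeries K))
        (GR2.deriv_MP hJ (rfn J v) v u i j)
      simp only [Polynomial.coe_sub, Polynomial.coe_mul] at h1
      rw [GR2.FP_X, Derivation.leibniz, PowerSeries.derivative_inv', GR2.der_apply, map_sum,
        PowerSeries.derivative_coe, PowerSeries.derivative_coe]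
      have h2 : ∑ l, GR2.FP (rfn J v) J v u (MvPolynomial.C (z l j) * MvPolynomial.X (i, l)) =
          ((∑ l, GR2.MP (rfn J v) J v u i l * Polynomial.C (z l j) : Polynomial K) :
            PowerSeries K) * (q : PowerSeries K)⁻¹ := by
        rw [show ((∑ l, GR2.MP (rfn J v) J v u i l * Polynomial.C (z l j) : Polynomial K) :
            PowerSeries K) = ∑ l, (GR2.MP (rfn J v) J v u i l : PowerSeries K) *
              PowerSeries.C (z l j) from by
            rw [← Polynomial.coeToPowerSeries.ringHom_apply, map_sum]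
            simp, Finset.sum_mul]
        apply Finset.sum_congr rfl
        intro l _
        rw [map_mul, GR2.FP_X, ← MvPolynomial.algebraMap_eq, AlgHom.commutes,
          PowerSeries.algebraMap_apply]
        simp only [Algebra.algebraMap_self, RingHom.id_apply]
        ring
      rw [h2, ← h1]
      simp only [smul_eq_mul]
      linear_combination (-((GR2.MP (rfn J v) J v u i j : Polynomial K) : PowerSeries K) *
        (q : PowerSeries K)⁻¹ * ((Polynomial.derivative q : Polynomial K) : PowerSeries K)) * hqq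
    · intro p hp
      exact hz p hp
    · intro p hp
      have h1 : PowerSeries.constantCoeff (GR2.FP (rfn J v) J v u p) =
          MvPolynomial.eval (fun ij : m × m => (1 : Matrix m m K) ij.1 ij.2) p := by
        have h2 : (PowerSeries.constantCoeff (R := K)).comp (algebraMap K (PowerSeries K)) =
            RingHom.id K := by
          ext c
          simp
        have h3 : (fun ij : m × m => PowerSeries.constantCoeff
            ((GR2.MP (rfn J v) J v u ij.1 ij.2 : PowerSeries K) *
              (GR2.qP J v u : PowerSeries K)⁻¹)) =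
            fun ij : m × m => (1 : Matrix m m K) ij.1 ij.2 := by
          funext ⟨i, j⟩
          have h4 := GR2.eval_MP hJ (rfn J v) v u 0 i j (by rw [hv0]; exact hv)
          rw [hv0, GR1.rfn_sq hJ hv] at h4
          rw [map_mul, PowerSeries.constantCoeff_inv, Polynomial.constantCoeff_coe,
            Polynomial.constantCoeff_coe, Polynomial.coeff_zero_eq_eval_zero,
            Polynomial.coeff_zero_eq_eval_zero, h4, GR2.eval_qP hJ, hv0]
          field_simp
        rw [GR2.FP, MvPolynomial.map_aeval, h2, h3]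
        rfl
      rw [h1, ← UN.gb_ev]
      exact hp 1 ⟨1, G.one_mem, rfl⟩
    · rintro _ ⟨g, hg, rfl⟩
      rw [UN.gb_ev]
      exact (hP g).1 hg p hp

end OR
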