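import Pool.Agent.Helper88.OR.RDefs

/-!
Reflections for a symmetric matrix over a field: the definition is in `Helper88.OR.RDefs`.
-/
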